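import Mathlib

/-! Uniform measures on circles and their logarithmic potentials. -/

namespace Pool.Agent.Q33.Fek

open MeasureTheory Set Real

/-- the uniform probability measure on the circle of centre `c` and radius `r` -/
noncomputable def sg (c : ℂ) (r : ℝ) : Measure ℂ :=
  Measure.map (circleMap c r)
    ((ENNReal.ofReal (2 * π))⁻¹ • (volume.restrict (Ioc (0 : ℝ) (2 * π))))

theorem meas_cm (c : ℂ) (r : ℝ) : Measurable (circleMap c r) := (continuous_circleMap c r).measurable

instance sg_prob (c : ℂ) (r : ℝ) : IsProbabilityMeasure (sg c r) := by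
  unfold sg
  have h0 : IsProbabilityMeasure
      ((ENNReal.ofReal (2 * π))⁻¹ • (volume.restrict (Ioc (0 : ℝ) (2 * π)))) := by
    constructor
    rw [Measure.smul_apply, Measure.restrict_apply_univ, Real.volume_Ioc, sub_zero, smul_eq_mul]
    refine ENNReal.inv_mul_cancel ?_ ENNReal.ofReal_ne_top
    have : (0 : ℝ) < 2 * π := by positivity
    simpa using this
  exact Measure.isProbabilityMeasure_map (meas_cm c r).aemeasurable

theorem integral_sg (c : ℂ) (r : ℝ) {f : ℂ → ℝ} (hf : Measurable f) :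
    ∫ z, f z ∂(sg c r) = circleAverage f c r := by
  unfold sg
  rw [integral_map (meas_cm c r).aemeasurable hf.aestronglyMeasurable, integral_smul_measure,
    circleAverage_def, intervalIntegral.integral_of_le (by positivity), ENNReal.toReal_inv,
    ENNReal.toReal_ofReal (by positivity)]

theorem integrable_sg {c : ℂ} {r : ℝ} {f : ℂ → ℝ} (hf : Measurable f) (h : CircleIntegrable f c r) :
    Integrable f (sg c r) := by
  unfold sg
  rw [integrable_map_measure hf.aestronglyMeasurable (meas_cm c r).aemeasurable]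
  apply Integrable.smul_measure
  · have h1 : IntervalIntegrable (fun θ => f (circleMap c r θ)) volume 0 (2 * π) := h
    exact (intervalIntegrable_iff_integrableOn_Ioc_of_le (by positivity)).1 h1
  · rw [ENNReal.inv_ne_top]
    have : (0 : ℝ) < 2 * π := by positivity
    simpa using this

theorem sg_countable {c : ℂ} {r : ℝ} (hr : r ≠ 0) {s : Set ℂ} (hs : s.Countable) : sg c r s = 0 := by
  unfold sg
  rw [Measure.map_apply (meas_cm c r) hs.measurableSet, Measure.smul_apply, smul_eq_mul]
  have h1 : (circleMap c r ⁻¹' s).Countable := hs.preimage_circleMap c hr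
  rw [h1.measure_zero, mul_zero]

theorem sg_sphere {c : ℂ} {r : ℝ} (hr : 0 < r) : ∀ᵐ z ∂(sg c r), ‖z - c‖ = r := by
  have hm : MeasurableSet {z : ℂ | ‖z - c‖ = r} :=
    measurableSet_eq_fun (by fun_prop) measurable_const
  unfold sg
  rw [ae_map_iff (meas_cm c r).aemeasurable hm]
  refine Filter.Eventually.of_forall fun t => ?_
  simp [circleMap, abs_of_pos hr]

/-- `log (max r ‖c - a‖)` -/
noncomputable def lm (r : ℝ) (x : ℂ) : ℝ := Real.log (max r ‖x‖)

theorem lm_cont {r : ℝ} (hr : 0 < r) : Continuous (lm r) := by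
  unfold lm
  exact Continuous.log (by fun_prop) fun x => (lt_of_lt_of_le hr (le_max_left _ _)).ne'

theorem le_lm {r : ℝ} (hr : 0 < r) (x : ℂ) : Real.log r ≤ lm r x :=
  Real.log_le_log hr (le_max_left _ _)

theorem log_le_lm {r : ℝ} {x : ℂ} (hx : x ≠ 0) : Real.log ‖x‖ ≤ lm r x :=
  Real.log_le_log (norm_pos_iff.2 hx) (le_max_right _ _)

theorem meas_log (a : ℂ) : Measurable fun z : ℂ => Real.log ‖z - a‖ := by fun_prop

theorem integrable_log (c a : ℂ) (r : ℝ) : Integrable (fun z => Real.log ‖z - a‖) (sg c r) :=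
  integrable_sg (meas_log a) (circleIntegrable_log_norm_sub_const r)

theorem integral_log {r : ℝ} (hr : 0 < r) (c a : ℂ) :
    ∫ z, Real.log ‖z - a‖ ∂(sg c r) = lm r (c - a) := by
  have hp : ∀ x : ℝ, Real.posLog x = max 0 (Real.log x) := fun x => rfl
  rw [integral_sg c r (meas_log a), circleAverage_log_norm_sub_const_eq_log_radius_add_posLog hr.ne',
    lm, hp]
  rcases le_total ‖c - a‖ r with h | h
  · rw [max_eq_left h]
    have h1 : r⁻¹ * ‖c - a‖ ≤ 1 := by
      rw [inv_mul_le_iff₀ hr]; linarith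
    have h2 : Real.log (r⁻¹ * ‖c - a‖) ≤ 0 := Real.log_nonpos (by positivity) h1
    rw [max_eq_left h2, add_zero]
  · rw [max_eq_right h]
    have h1 : 1 ≤ r⁻¹ * ‖c - a‖ := by
      rw [le_inv_mul_iff₀ hr]; linarith
    have h2 : 0 ≤ Real.log (r⁻¹ * ‖c - a‖) := Real.log_nonneg h1
    rw [max_eq_right h2, Real.log_mul (by positivity) (by linarith [hr] : ‖c - a‖ ≠ 0), Real.log_inv]
    ring

theorem integrable_lm {r : ℝ} (hr : 0 < r) (c a : ℂ) (s : ℝ) :
    Integrable (fun z => lm r (z - a)) (sg c s) := by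
  have hc : Continuous fun z : ℂ => lm r (z - a) := (lm_cont hr).comp (by fun_prop)
  refine integrable_sg hc.measurable ?_
  exact (hc.continuousOn).circleIntegrable'

theorem integral_lm_ge {r : ℝ} (hr : 0 < r) (c a : ℂ) :
    lm r (c - a) ≤ ∫ z, lm r (z - a) ∂(sg c r) := by
  rw [← integral_log hr c a]
  refine integral_mono_ae (integrable_log c a r) (integrable_lm hr c a r) ?_
  have h0 : ∀ᵐ z ∂(sg c r), z ∉ ({a} : Set ℂ) :=
    measure_eq_zero_iff_ae_notMem.1 (sg_countable hr.ne' (countable_singleton a))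
  filter_upwards [h0] with z hz
  exact log_le_lm (sub_ne_zero.2 hz)

end Pool.Agent.Q33.Fek
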