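import Mathlib

/-! The energy of a measure is at most the normalised logarithm of the diameters. -/

namespace Pool.Agent.Q33.Fek

open MeasureTheory Set Real Finset ProbabilityTheory

theorem meas_log2' : Measurable fun p : ℂ × ℂ => Real.log ‖p.1 - p.2‖ := by fun_prop

theorem pair_map {n : ℕ} (μ : Measure ℂ) [IsProbabilityMeasure μ] {j k : Fin n} (h : j ≠ k) :
    MeasurePreserving (fun w : Fin n → ℂ => (w j, w k)) (Measure.pi fun _ : Fin n => μ) (μ.prod μ) := by
  refine ⟨by fun_prop, ?_⟩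
  have hind : iIndepFun (fun (i : Fin n) (w : Fin n → ℂ) => id (w i)) (Measure.pi fun _ : Fin n => μ) :=
    iIndepFun_pi (X := fun _ => id) (fun _ => aemeasurable_id)
  have h2 := hind.indepFun h
  have h3 := (indepFun_iff_map_prod_eq_prod_map_map (μ := Measure.pi fun _ : Fin n => μ)
    (f := fun w : Fin n → ℂ => id (w j)) (g := fun w : Fin n → ℂ => id (w k))
    (measurable_pi_apply j).aemeasurable (measurable_pi_apply k).aemeasurable).1 h2
  have h4 : ∀ i : Fin n, Measure.map (fun w : Fin n → ℂ => id (w i)) (Measure.pi fun _ : Fin n => μ) = μ :=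
    fun i => (measurePreserving_eval (fun _ : Fin n => μ) i).map_eq
  rw [h4 j, h4 k] at h3
  exact h3

theorem iid {n : ℕ} (μ : Measure ℂ) [IsProbabilityMeasure μ]
    (hd : (μ.prod μ) {p : ℂ × ℂ | p.1 = p.2} = 0)
    (hi : Integrable (fun p : ℂ × ℂ => Real.log ‖p.1 - p.2‖) (μ.prod μ))
    {E : Set ℂ} (hE : μ Eᶜ = 0) {L : ℝ}
    (hL : ∀ w : Fin n → ℂ, (∀ i, w i ∈ E) → Function.Injective w →
      ∑ j, ∑ k ∈ univ.erase j, Real.log ‖w j - w k‖ ≤ L) :
    (n * (n - 1) : ℝ) * ∫ p, Real.log ‖p.1 - p.2‖ ∂(μ.prod μ) ≤ L := by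
  set P : Measure (Fin n → ℂ) := Measure.pi fun _ : Fin n => μ with hP
  have hI : ∀ j, ∀ k ∈ univ.erase j, Integrable (fun w : Fin n → ℂ => Real.log ‖w j - w k‖) P := by
    intro j k hk
    exact (pair_map μ (Finset.ne_of_mem_erase hk).symm).integrable_comp_of_integrable hi
  have hint : ∀ j, ∀ k ∈ univ.erase j, ∫ w, Real.log ‖w j - w k‖ ∂P =
      ∫ p, Real.log ‖p.1 - p.2‖ ∂(μ.prod μ) := by
    intro j k hk
    have hmp := pair_map μ (Finset.ne_of_mem_erase hk).symm
    rw [← hmp.map_eq, integral_map hmp.measurable.aemeasurable meas_log2'.aestronglyMeasurable]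
  have h1 : ∫ w, ∑ j, ∑ k ∈ univ.erase j, Real.log ‖w j - w k‖ ∂P =
      (n * (n - 1) : ℝ) * ∫ p, Real.log ‖p.1 - p.2‖ ∂(μ.prod μ) := by
    rw [integral_finsetSum _ fun j _ => integrable_finsetSum _ fun k hk => hI j k hk]
    have h2 : ∀ j : Fin n, ∫ w, ∑ k ∈ univ.erase j, Real.log ‖w j - w k‖ ∂P =
        (n - 1 : ℝ) * ∫ p, Real.log ‖p.1 - p.2‖ ∂(μ.prod μ) := by
      intro j
      rw [integral_finsetSum _ fun k hk => hI j k hk, sum_congr rfl fun k hk => hint j k hk, sum_const,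
        card_erase_of_mem (mem_univ j), card_univ, Fintype.card_fin, nsmul_eq_mul]
      have hn : 1 ≤ n := by have := j.2; omega
      push_cast [Nat.cast_sub hn]
      ring
    rw [sum_congr rfl fun j _ => h2 j, sum_const, card_univ, Fintype.card_fin, nsmul_eq_mul]
    ring
  rw [← h1]
  have hae1 : ∀ i : Fin n, ∀ᵐ w ∂P, w i ∈ E := by
    intro i
    have h2 : ∀ᵐ z ∂μ, z ∈ E := by
      rw [ae_iff]
      simpa [Set.compl_def] using hE
    exact (measurePreserving_eval (fun _ : Fin n => μ) i).quasiMeasurePreserving.ae h2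
  have hae2 : ∀ j k : Fin n, j ≠ k → ∀ᵐ w ∂P, w j ≠ w k := by
    intro j k hjk
    have h2 : ∀ᵐ p ∂(μ.prod μ), p.1 ≠ p.2 := by
      rw [ae_iff]
      simpa using hd
    exact (pair_map μ hjk).quasiMeasurePreserving.ae h2
  have h3 : ∀ᵐ w ∂P, ∑ j, ∑ k ∈ univ.erase j, Real.log ‖w j - w k‖ ≤ L := by
    have h4 : ∀ᵐ w ∂P, ∀ i, w i ∈ E := ae_all_iff.2 hae1
    have h5 : ∀ᵐ w ∂P, ∀ j k, j ≠ k → w j ≠ w k :=
      ae_all_iff.2 fun j => ae_all_iff.2 fun k => by
        by_cases h : j = k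
        · exact Filter.Eventually.of_forall fun w hh => absurd h hh
        · filter_upwards [hae2 j k h] with w hw _ using hw
    filter_upwards [h4, h5] with w hw1 hw2
    refine hL w hw1 fun j k hjk => ?_
    by_contra h
    exact hw2 j k h hjk
  calc ∫ w, ∑ j, ∑ k ∈ univ.erase j, Real.log ‖w j - w k‖ ∂P ≤ ∫ _, L ∂P :=
        integral_mono_ae (integrable_finsetSum _ fun j _ => integrable_finsetSum _ fun k hk => hI j k hk)
          (integrable_const _) h3
    _ = L := by simp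

end Pool.Agent.Q33.Fek
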