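import Pool.Agent.Q33.Fek.Circ

/-! Fekete points of a neighbourhood: one row of the estimate. -/

namespace Pool.Agent.Q33.Fek

open MeasureTheory Set Real Finset

theorem split {n : ℕ} (F : Fin n → Fin n → ℝ) (hF : ∀ i k, F i k = F k i) (j : Fin n) :
    ∑ i, ∑ k ∈ univ.erase i, F i k =
      2 * ∑ k ∈ univ.erase j, F j k + ∑ i ∈ univ.erase j, ∑ k ∈ (univ.erase i).erase j, F i k := by
  rw [← add_sum_erase univ _ (mem_univ j)]
  have h1 : ∀ i ∈ univ.erase j, ∑ k ∈ univ.erase i, F i k =
      F i j + ∑ k ∈ (univ.erase i).erase j, F i k := by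
    intro i hi
    rw [add_sum_erase]
    exact mem_erase.2 ⟨(ne_of_mem_erase hi).symm, mem_univ j⟩
  rw [sum_congr rfl h1, sum_add_distrib, sum_congr rfl fun i _ => hF i j]
  ring

/-- consequence of the extremal property for one point -/
theorem one_point {n : ℕ} {E : Set ℂ} {w : Fin n → ℂ} (hwE : ∀ i, w i ∈ E)
    (hinj : Function.Injective w)
    (hmax : ∀ v : Fin n → ℂ, (∀ i, v i ∈ E) → Function.Injective v →
      ∑ i, ∑ k ∈ univ.erase i, Real.log ‖v i - v k‖ ≤ ∑ i, ∑ k ∈ univ.erase i, Real.log ‖w i - w k‖)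
    (j : Fin n) {z : ℂ} (hz : z ∈ E) (hzw : z ∉ Set.range w) :
    ∑ k ∈ univ.erase j, Real.log ‖z - w k‖ ≤ ∑ k ∈ univ.erase j, Real.log ‖w j - w k‖ := by
  classical
  have h1 := hmax (Function.update w j z) (by
    intro i
    by_cases h : i = j
    · subst h; simpa using hz
    · rw [Function.update_of_ne h]; exact hwE i) (by
    intro a b hab
    by_cases ha : a = j
    · subst ha
      by_cases hb : b = a
      · exact hb.symm
      · rw [Function.update_self, Function.update_of_ne hb] at hab
        exact absurd ⟨b, hab.symm⟩ hzw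
    · by_cases hb : b = j
      · subst hb
        rw [Function.update_self, Function.update_of_ne ha] at hab
        exact absurd ⟨a, hab⟩ hzw
      · rw [Function.update_of_ne ha, Function.update_of_ne hb] at hab
        exact hinj hab)
  rw [split (fun i k => Real.log ‖Function.update w j z i - Function.update w j z k‖)
    (fun i k => by show Real.log _ = Real.log _; rw [norm_sub_rev]) j,
    split (fun i k => Real.log ‖w i - w k‖) (fun i k => by show Real.log _ = Real.log _; rw [norm_sub_rev]) j] at h1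
  have h2 : ∑ k ∈ univ.erase j, Real.log ‖Function.update w j z j - Function.update w j z k‖ =
      ∑ k ∈ univ.erase j, Real.log ‖z - w k‖ := by
    refine sum_congr rfl fun k hk => ?_
    rw [Function.update_self, Function.update_of_ne (ne_of_mem_erase hk)]
  have h3 : ∑ i ∈ univ.erase j, ∑ k ∈ (univ.erase i).erase j,
      Real.log ‖Function.update w j z i - Function.update w j z k‖ =
      ∑ i ∈ univ.erase j, ∑ k ∈ (univ.erase i).erase j, Real.log ‖w i - w k‖ := by
    refine sum_congr rfl fun i hi => sum_congr rfl fun k hk => ?_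
    rw [Function.update_of_ne (ne_of_mem_erase hi), Function.update_of_ne (ne_of_mem_erase hk)]
  rw [h2, h3] at h1
  linarith

/-- averaging the one point inequality over a circle contained in `E` -/
theorem circ_row {n : ℕ} {E : Set ℂ} {w : Fin n → ℂ}
    (j : Fin n)
    (h1 : ∀ z ∈ E, z ∉ Set.range w →
      ∑ k ∈ univ.erase j, Real.log ‖z - w k‖ ≤ ∑ k ∈ univ.erase j, Real.log ‖w j - w k‖)
    {b : ℂ} {r : ℝ} (hr : 0 < r) (hb : ∀ z : ℂ, ‖z - b‖ = r → z ∈ E) :
    ∑ k ∈ univ.erase j, lm r (b - w k) ≤ ∑ k ∈ univ.erase j, Real.log ‖w j - w k‖ := by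
  have h2 : ∑ k ∈ univ.erase j, lm r (b - w k) =
      ∫ z, ∑ k ∈ univ.erase j, Real.log ‖z - w k‖ ∂(sg b r) := by
    rw [integral_finsetSum _ fun k _ => integrable_log b (w k) r]
    exact sum_congr rfl fun k _ => (integral_log hr b (w k)).symm
  rw [h2]
  have h3 : ∀ᵐ z ∂(sg b r), z ∉ Set.range w :=
    measure_eq_zero_iff_ae_notMem.1 (sg_countable hr.ne' (Set.countable_range w))
  calc ∫ z, ∑ k ∈ univ.erase j, Real.log ‖z - w k‖ ∂(sg b r)
      ≤ ∫ _, ∑ k ∈ univ.erase j, Real.log ‖w j - w k‖ ∂(sg b r) := by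
        refine integral_mono_ae (integrable_finsetSum _ fun k _ => integrable_log b (w k) r)
          (integrable_const _) ?_
        filter_upwards [h3, sg_sphere (c := b) hr] with z hz1 hz2
        exact h1 z (hb z hz2) hz1
    _ = _ := by simp

/-- one row -/
theorem row {n : ℕ} {w : Fin n → ℂ} (hinj : Function.Injective w) (j : Fin n)
    {b : Fin n → ℂ} {r η : ℝ} (hr : 0 < r) (hη : 0 < η) (hη1 : η < 1)
    (hwb : ∀ k, ‖w k - b k‖ ≤ r)
    (h0 : ∑ k ∈ univ.erase j, lm r (b j - w k) ≤ ∑ k ∈ univ.erase j, Real.log ‖w j - w k‖)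
    {c : Fin n → ℂ} (hc : ∀ k, c k = b k + ((1 - η ^ 2 / 2 : ℝ) : ℂ) * (w k - b k)) :
    ∑ k ∈ univ.erase j, Real.log ‖w j - w k‖ ≤
      ∑ k ∈ univ.erase j, lm (η ^ 2 / 2 * r) (c j - c k) +
        n * (-Real.log (1 - η) + Real.log 2 * Real.log 3 / (-Real.log η)) := by
  classical
  have hl2 : 0 < Real.log 2 := Real.log_pos (by norm_num)
  have hl3 : 0 < Real.log 3 := Real.log_pos (by norm_num)
  have hlη : 0 < -Real.log η := by
    have := Real.log_neg hη hη1
    linarith
  have hl1 : 0 < -Real.log (1 - η) := by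
    have := Real.log_neg (by linarith : 0 < 1 - η) (by linarith)
    linarith
  have hpos : ∀ k ∈ univ.erase j, 0 < ‖w j - w k‖ := by
    intro k hk
    exact norm_pos_iff.2 (sub_ne_zero.2 fun h => ne_of_mem_erase hk (hinj h).symm)
  set A := (univ.erase j).filter fun k => ‖w j - w k‖ < η * r with hA
  set B := (univ.erase j).filter fun k => ¬ ‖w j - w k‖ < η * r with hB
  have hcard : ((A.card : ℝ)) + B.card ≤ n := by
    have h1 : A.card + B.card = (univ.erase j : Finset (Fin n)).card :=
      card_filter_add_card_filter_not _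
    have h2 : (univ.erase j : Finset (Fin n)).card ≤ n := by
      calc _ ≤ (univ : Finset (Fin n)).card := card_le_card (erase_subset _ _)
        _ = n := by simp
    have h3 : A.card + B.card ≤ n := by omega
    exact_mod_cast h3
  -- the number of close points
  have hN : (A.card : ℝ) * (-Real.log η) ≤ n * Real.log 2 := by
    have h1 : ∑ k ∈ univ.erase j, (Real.log ‖w j - w k‖ - lm r (b j - w k)) ≤
        A.card * Real.log η + B.card * Real.log 2 := by
      rw [← sum_filter_add_sum_filter_not (univ.erase j) fun k => ‖w j - w k‖ < η * r]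
      have hA1 : ∑ k ∈ A, (Real.log ‖w j - w k‖ - lm r (b j - w k)) ≤ A.card * Real.log η := by
        rw [← nsmul_eq_mul]
        refine sum_le_card_nsmul _ _ _ fun k hk => ?_
        have hk1 := (mem_filter.1 hk)
        have h2 : Real.log ‖w j - w k‖ ≤ Real.log (η * r) :=
          Real.log_le_log (hpos k hk1.1) hk1.2.le
        rw [Real.log_mul hη.ne' hr.ne'] at h2
        have h3 := le_lm hr (b j - w k)
        linarith
      have hB1 : ∑ k ∈ B, (Real.log ‖w j - w k‖ - lm r (b j - w k)) ≤ B.card * Real.log 2 := by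
        rw [← nsmul_eq_mul]
        refine sum_le_card_nsmul _ _ _ fun k hk => ?_
        have hk1 := (mem_filter.1 hk)
        have hmax : 0 < max r ‖b j - w k‖ := lt_of_lt_of_le hr (le_max_left _ _)
        have h2 : ‖w j - w k‖ ≤ 2 * max r ‖b j - w k‖ := by
          have h3 : ‖w j - w k‖ ≤ ‖w j - b j‖ + ‖b j - w k‖ := by
            have := norm_add_le (w j - b j) (b j - w k)
            simpa using this
          have h4 := hwb j
          have h5 := le_max_left r ‖b j - w k‖
          have h6 := le_max_right r ‖b j - w k‖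
          linarith
        have h3 := Real.log_le_log (hpos k hk1.1) h2
        rw [Real.log_mul (by norm_num) hmax.ne'] at h3
        unfold lm
        linarith
      exact add_le_add hA1 hB1
    rw [sum_sub_distrib] at h1
    have h2 : (B.card : ℝ) ≤ n := by
      have : (0 : ℝ) ≤ A.card := by positivity
      linarith
    nlinarith
  -- comparison
  have h1 : ∑ k ∈ univ.erase j, (Real.log ‖w j - w k‖ - lm (η ^ 2 / 2 * r) (c j - c k)) ≤
      A.card * Real.log 3 + B.card * (-Real.log (1 - η)) := by
    rw [← sum_filter_add_sum_filter_not (univ.erase j) fun k => ‖w j - w k‖ < η * r]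
    have hρ : 0 < η ^ 2 / 2 * r := by positivity
    have hwc : ∀ k, ‖w k - c k‖ ≤ η ^ 2 / 2 * r := by
      intro k
      have h2 : w k - c k = ((η ^ 2 / 2 : ℝ) : ℂ) * (w k - b k) := by
        rw [hc k]; push_cast; ring
      rw [h2, norm_mul, Complex.norm_real, Real.norm_of_nonneg (by positivity)]
      exact mul_le_mul_of_nonneg_left (hwb k) (by positivity)
    have hle : ∀ k, ‖w j - w k‖ ≤ max (η ^ 2 / 2 * r) ‖c j - c k‖ + 2 * (η ^ 2 / 2 * r) := by
      intro k
      have h3 : ‖w j - w k‖ ≤ ‖w j - c j‖ + ‖c j - c k‖ + ‖w k - c k‖ := by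
        have h4 : w j - w k = (w j - c j) + (c j - c k) - (w k - c k) := by ring
        rw [h4]
        exact (norm_sub_le _ _).trans (add_le_add_left (norm_add_le _ _) _)
      have h5 := hwc j
      have h6 := hwc k
      have h7 := le_max_right (η ^ 2 / 2 * r) ‖c j - c k‖
      linarith
    have hM : ∀ k, 0 < max (η ^ 2 / 2 * r) ‖c j - c k‖ := fun k => lt_of_lt_of_le hρ (le_max_left _ _)
    have hA1 : ∑ k ∈ A, (Real.log ‖w j - w k‖ - lm (η ^ 2 / 2 * r) (c j - c k)) ≤
        A.card * Real.log 3 := by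
      rw [← nsmul_eq_mul]
      refine sum_le_card_nsmul _ _ _ fun k hk => ?_
      have hk1 := (mem_filter.1 hk)
      have h2 : ‖w j - w k‖ ≤ 3 * max (η ^ 2 / 2 * r) ‖c j - c k‖ := by
        have h3 := hle k
        have h4 := le_max_left (η ^ 2 / 2 * r) ‖c j - c k‖
        linarith
      have h3 := Real.log_le_log (hpos k hk1.1) h2
      rw [Real.log_mul (by norm_num) (hM k).ne'] at h3
      unfold lm
      linarith
    have hB1 : ∑ k ∈ B, (Real.log ‖w j - w k‖ - lm (η ^ 2 / 2 * r) (c j - c k)) ≤
        B.card * (-Real.log (1 - η)) := by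
      rw [← nsmul_eq_mul]
      refine sum_le_card_nsmul _ _ _ fun k hk => ?_
      have hk1 := (mem_filter.1 hk)
      have hge : η * r ≤ ‖w j - w k‖ := not_lt.1 hk1.2
      have h2 : (1 - η) * ‖w j - w k‖ ≤ max (η ^ 2 / 2 * r) ‖c j - c k‖ := by
        have h3 := hle k
        nlinarith
      have h3 := Real.log_le_log (mul_pos (by linarith) (hpos k hk1.1)) h2
      rw [Real.log_mul (by linarith) (hpos k hk1.1).ne'] at h3
      unfold lm
      linarith
    exact add_le_add hA1 hB1
  rw [sum_sub_distrib] at h1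
  have h2 : (A.card : ℝ) * Real.log 3 ≤ n * (Real.log 2 * Real.log 3 / (-Real.log η)) := by
    have h3 : (A.card : ℝ) ≤ n * Real.log 2 / (-Real.log η) := by
      rw [le_div_iff₀ hlη]; exact hN
    calc (A.card : ℝ) * Real.log 3 ≤ (n * Real.log 2 / (-Real.log η)) * Real.log 3 :=
          mul_le_mul_of_nonneg_right h3 hl3.le
      _ = _ := by ring
  have h3 : (B.card : ℝ) * (-Real.log (1 - η)) ≤ n * (-Real.log (1 - η)) := by
    apply mul_le_mul_of_nonneg_right _ hl1.le
    have : (0 : ℝ) ≤ A.card := by positivity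
    linarith
  have h4 : (n : ℝ) * (-Real.log (1 - η) + Real.log 2 * Real.log 3 / (-Real.log η)) =
      n * (-Real.log (1 - η)) + n * (Real.log 2 * Real.log 3 / (-Real.log η)) := by ring
  rw [h4]
  linarith

end Pool.Agent.Q33.Fek
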