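import Pool.Agent.Q33.Fek.Circ

/-! Logarithmic energy of an average of circle measures. -/

namespace Pool.Agent.Q33.Fek

open MeasureTheory Set Real Finset

/-- average of the circle measures of centres `c j` and radius `r` -/
noncomputable def smr {n : ℕ} (c : Fin n → ℂ) (r : ℝ) : Measure ℂ :=
  (n : ENNReal)⁻¹ • ∑ j, sg (c j) r

theorem smr_prob {n : ℕ} (hn : 0 < n) (c : Fin n → ℂ) (r : ℝ) : IsProbabilityMeasure (smr c r) := by
  constructor
  unfold smr
  rw [Measure.smul_apply, Measure.finsetSum_apply]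
  simp only [measure_univ, sum_const, card_univ, Fintype.card_fin, nsmul_eq_mul, mul_one, smul_eq_mul]
  exact ENNReal.inv_mul_cancel (by simpa using hn.ne') (ENNReal.natCast_ne_top n)

theorem smr_null {n : ℕ} (c : Fin n → ℂ) (r : ℝ) {s : Set ℂ} (h : ∀ j, sg (c j) r s = 0) :
    smr c r s = 0 := by
  unfold smr
  rw [Measure.smul_apply, Measure.finsetSum_apply]
  simp [h]

theorem smr_ae {n : ℕ} (c : Fin n → ℂ) (r : ℝ) {P : ℂ → Prop} (h : ∀ j, ∀ᵐ z ∂(sg (c j) r), P z) :
    ∀ᵐ z ∂(smr c r), P z := by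
  rw [ae_iff]
  exact smr_null c r fun j => ae_iff.1 (h j)

theorem smr_integrable {n : ℕ} (c : Fin n → ℂ) (r : ℝ) {f : ℂ → ℝ}
    (h : ∀ j, Integrable f (sg (c j) r)) (hn : 0 < n) : Integrable f (smr c r) := by
  unfold smr
  apply Integrable.smul_measure
  · rw [integrable_finsetSum_measure]
    exact fun j _ => h j
  · rw [ENNReal.inv_ne_top]
    simpa using hn.ne'

theorem smr_integral {n : ℕ} (c : Fin n → ℂ) (r : ℝ) {f : ℂ → ℝ}
    (h : ∀ j, Integrable f (sg (c j) r)) :
    ∫ z, f z ∂(smr c r) = (n : ℝ)⁻¹ * ∑ j, ∫ z, f z ∂(sg (c j) r) := by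
  unfold smr
  rw [integral_smul_measure, integral_finsetSum_measure fun j _ => h j]
  simp

theorem lm_sub_comm (r : ℝ) (x y : ℂ) : lm r (x - y) = lm r (y - x) := by
  unfold lm
  rw [norm_sub_rev]

/-- the potential -/
theorem smr_pot {n : ℕ} (c : Fin n → ℂ) {r : ℝ} (hr : 0 < r) (z : ℂ) :
    ∫ w, Real.log ‖z - w‖ ∂(smr c r) = (n : ℝ)⁻¹ * ∑ k, lm r (z - c k) := by
  have h : ∀ w : ℂ, Real.log ‖z - w‖ = Real.log ‖w - z‖ := fun w => by rw [norm_sub_rev]
  simp only [h]
  rw [smr_integral c r fun j => integrable_log (c j) z r]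
  congr 1
  refine sum_congr rfl fun k _ => ?_
  rw [integral_log hr, lm_sub_comm]

theorem meas_log2 : Measurable fun p : ℂ × ℂ => Real.log ‖p.1 - p.2‖ := by fun_prop

theorem smear_integrable {n : ℕ} (hn : 0 < n) (c : Fin n → ℂ) {r : ℝ} (hr : 0 < r) :
    Integrable (fun p : ℂ × ℂ => Real.log ‖p.1 - p.2‖) ((smr c r).prod (smr c r)) := by
  have := smr_prob hn c r
  rw [integrable_prod_iff meas_log2.aestronglyMeasurable]
  have hint : ∀ z : ℂ, Integrable (fun w => Real.log ‖z - w‖) (smr c r) := by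
    intro z
    have h : (fun w : ℂ => Real.log ‖z - w‖) = fun w => Real.log ‖w - z‖ := by
      ext w; rw [norm_sub_rev]
    rw [h]
    exact smr_integrable c r (fun j => integrable_log (c j) z r) hn
  refine ⟨Filter.Eventually.of_forall fun z => hint z, ?_⟩
  set D : ℝ := 1 + 2 * (r + ∑ j, ‖c j‖) with hD
  have hS : 0 ≤ ∑ j, ‖c j‖ := sum_nonneg fun j _ => norm_nonneg _
  have hD1 : 1 ≤ D := by rw [hD]; linarith
  have hb : ∀ᵐ z ∂(smr c r), ‖z‖ ≤ r + ∑ j, ‖c j‖ := by
    refine smr_ae c r fun j => ?_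
    filter_upwards [sg_sphere (c := c j) hr] with z hz
    have h1 : ‖z‖ ≤ ‖z - c j‖ + ‖c j‖ := by
      have := norm_add_le (z - c j) (c j)
      simpa using this
    have h2 : ‖c j‖ ≤ ∑ j, ‖c j‖ :=
      single_le_sum (f := fun j => ‖c j‖) (fun j _ => norm_nonneg _) (mem_univ j)
    linarith
  refine Integrable.of_bound (C := 2 * Real.log D - Real.log r)
    (meas_log2.norm.aestronglyMeasurable.integral_prod_right' (μ := smr c r)) ?_
  filter_upwards [hb] with z hz
  have h0 : 0 ≤ ∫ w, ‖Real.log ‖z - w‖‖ ∂(smr c r) := integral_nonneg fun w => norm_nonneg _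
  rw [Real.norm_of_nonneg h0]
  have h1 : ∫ w, ‖Real.log ‖z - w‖‖ ∂(smr c r) ≤
      ∫ w, (2 * Real.log D - Real.log ‖z - w‖) ∂(smr c r) := by
    refine integral_mono_ae (hint z).norm ((integrable_const _).sub (hint z)) ?_
    filter_upwards [hb] with w hw
    have h2 : ‖z - w‖ ≤ D := by
      have := norm_sub_le z w
      rw [hD]; linarith
    have h3 : 0 ≤ Real.log D := Real.log_nonneg hD1
    have h4 : Real.log ‖z - w‖ ≤ Real.log D := by
      rcases eq_or_lt_of_le (norm_nonneg (z - w)) with h | h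
      · rw [← h, Real.log_zero]; exact h3
      · exact Real.log_le_log h h2
    rw [Real.norm_eq_abs]
    rcases abs_cases (Real.log ‖z - w‖) with ⟨h5, _⟩ | ⟨h5, _⟩ <;> rw [h5] <;> linarith
  rw [integral_sub (integrable_const _) (hint z), integral_const, smr_pot c hr z] at h1
  have h6 : Real.log r ≤ (n : ℝ)⁻¹ * ∑ k, lm r (z - c k) := by
    have h7 : (n : ℝ) * Real.log r ≤ ∑ k, lm r (z - c k) := by
      have := card_nsmul_le_sum (univ : Finset (Fin n)) (fun k => lm r (z - c k)) (Real.log r)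
        fun k _ => le_lm hr _
      simpa using this
    rw [le_inv_mul_iff₀ (by exact_mod_cast hn)]
    exact h7
  simp only [probReal_univ, smul_eq_mul, one_mul] at h1
  linarith

theorem smear_diag {n : ℕ} (hn : 0 < n) (c : Fin n → ℂ) {r : ℝ} (hr : 0 < r) :
    ((smr c r).prod (smr c r)) {p : ℂ × ℂ | p.1 = p.2} = 0 := by
  have := smr_prob hn c r
  have hm : MeasurableSet {p : ℂ × ℂ | p.1 = p.2} := measurableSet_eq_fun measurable_fst measurable_snd
  rw [Measure.measure_prod_null hm]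
  refine Filter.Eventually.of_forall fun z => ?_
  have h1 : Prod.mk z ⁻¹' {p : ℂ × ℂ | p.1 = p.2} = {z} := by
    ext w
    simp [eq_comm]
  show (smr c r) (Prod.mk z ⁻¹' {p : ℂ × ℂ | p.1 = p.2}) = 0
  rw [h1]
  exact smr_null c r fun j => sg_countable hr.ne' (countable_singleton z)

theorem smear_energy {n : ℕ} (hn : 0 < n) (c : Fin n → ℂ) {r : ℝ} (hr : 0 < r) :
    ((n : ℝ) ^ 2)⁻¹ * ∑ j, ∑ k, lm r (c j - c k) ≤
      ∫ p, Real.log ‖p.1 - p.2‖ ∂((smr c r).prod (smr c r)) := by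
  have := smr_prob hn c r
  rw [integral_prod _ (smear_integrable hn c hr)]
  have h1 : ∀ z : ℂ, ∫ w, Real.log ‖z - w‖ ∂(smr c r) = (n : ℝ)⁻¹ * ∑ k, lm r (z - c k) :=
    fun z => smr_pot c hr z
  simp only [h1]
  have hI : ∀ j, Integrable (fun z => (n : ℝ)⁻¹ * ∑ k, lm r (z - c k)) (sg (c j) r) := by
    intro j
    exact (integrable_finsetSum _ fun k _ => integrable_lm hr (c j) (c k) r).const_mul _
  rw [smr_integral c r hI, sq, mul_inv, mul_assoc]
  apply mul_le_mul_of_nonneg_left _ (by positivity)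
  rw [mul_sum]
  refine sum_le_sum fun j _ => ?_
  rw [integral_const_mul, integral_finsetSum _ fun k _ => integrable_lm hr (c j) (c k) r]
  apply mul_le_mul_of_nonneg_left _ (by positivity)
  exact sum_le_sum fun k _ => integral_lm_ge hr (c j) (c k)

end Pool.Agent.Q33.Fek
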